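import Pool.Agent.H31.CRG.TR
import Pool.Agent.H96.CV.LS

/-!
# Critical zeros in every even degree: module UB (bounds for the alternating sums)
-/

set_option autoImplicit false

open NumberField NumberField.InfinitePlace Complex Filter Topology MeasureTheory

namespace Pool.Agent.H48.CRG

open Pool.Agent.H28.RC Pool.Agent.H25.HK Pool.Agent.H37.CV Pool.Agent.H65.CRZ Pool.Agent.H65.CRG
  Pool.Agent.H31.CRG

/-- the powers of a real number are close to one -/
theorem cpow_sub_one_le {x : ℝ} (hx : 1 ≤ x) (a : ℂ) :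
    ‖((x : ℝ) : ℂ) ^ a - 1‖ ≤ ‖a‖ * Real.log x * Real.exp (‖a‖ * Real.log x) := by
  have hx0 : (x : ℂ) ≠ 0 := by
    have : x ≠ 0 := by linarith
    exact_mod_cast this
  rw [Complex.cpow_def_of_ne_zero hx0, ← Complex.ofReal_log (by linarith)]
  have h1 := Complex.norm_exp_sub_sum_le_norm_mul_exp ((Real.log x : ℂ) * a) 1
  simp only [Finset.range_one, Finset.sum_singleton, pow_zero, Nat.factorial_zero, Nat.cast_one,
    div_one, pow_one] at h1
  have h2 : ‖(Real.log x : ℂ) * a‖ = ‖a‖ * Real.log x := by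
    rw [norm_mul, Complex.norm_real, Real.norm_eq_abs, abs_of_nonneg (Real.log_nonneg hx),
      mul_comm]
  rw [h2] at h1
  exact h1

section
variable {K : Type} [Field K] [NumberField K]

theorem one_le_nS (S : Finset (PrI K)) : 1 ≤ nS np S := by
  classical
  induction S using Finset.induction_on with
  | empty => simp [nS]
  | insert P S hP ih =>
    unfold nS at ih ⊢
    rw [Finset.prod_insert hP]
    nlinarith [Pool.Agent.H96.CV.two_le_np P]

theorem nS_mono {S T : Finset (PrI K)} (h : S ⊆ T) : nS np S ≤ nS np T := by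
  classical
  have h1 : nS np T = nS np S * nS np (T \ S) := by
    unfold nS
    rw [mul_comm, Finset.prod_sdiff h]
  rw [h1]
  have := one_le_nS S
  have := one_le_nS (T \ S)
  nlinarith

theorem log_nS (S : Finset (PrI K)) : Real.log (nS np S) = ∑ P ∈ S, Real.log (np P) := by
  unfold nS
  rw [Real.log_prod]
  intro P _
  exact (Pool.Agent.H96.CV.np_pos P).ne'

theorem logn_nonneg (P : PrI K) : 0 ≤ Real.log (np P) :=
  Real.log_nonneg (by linarith [Pool.Agent.H96.CV.two_le_np P])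

/-- the factors of `cR` -/
theorem zf_le {C₀ M : ℝ} (hC₀ : 0 < C₀) (hM : 2 ≤ M) {a : ℂ} (ha : ‖a‖ ≤ C₀ / Real.log M)
    {P : PrI K} (hP : np P ≤ M) :
    ‖(((np P : ℝ) : ℂ) ^ a - 1) * ((np P / (np P - 1) : ℝ) : ℂ)‖ ≤
      2 * Real.exp C₀ * ‖a‖ * Real.log (np P) := by
  have h2 := Pool.Agent.H96.CV.two_le_np P
  have hL : 0 < Real.log M := Real.log_pos (by linarith)
  have hl := logn_nonneg P
  have hlM : Real.log (np P) ≤ Real.log M := Real.log_le_log (by linarith) hP
  have h1 := cpow_sub_one_le (by linarith : (1 : ℝ) ≤ np P) a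
  have h3 : ‖a‖ * Real.log (np P) ≤ C₀ := by
    calc ‖a‖ * Real.log (np P) ≤ C₀ / Real.log M * Real.log M :=
          mul_le_mul ha hlM hl (by positivity)
      _ = C₀ := by field_simp
  have h4 : ‖((np P / (np P - 1) : ℝ) : ℂ)‖ ≤ 2 := by
    rw [Complex.norm_real, Real.norm_eq_abs, abs_of_nonneg (div_nonneg (by linarith)
      (by linarith)), div_le_iff₀ (by linarith)]
    linarith
  rw [norm_mul]
  have h5 : ‖((np P : ℝ) : ℂ) ^ a - 1‖ ≤ ‖a‖ * Real.log (np P) * Real.exp C₀ :=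
    h1.trans (mul_le_mul_of_nonneg_left (Real.exp_le_exp.2 h3)
      (mul_nonneg (norm_nonneg _) hl))
  calc ‖((np P : ℝ) : ℂ) ^ a - 1‖ * ‖((np P / (np P - 1) : ℝ) : ℂ)‖
      ≤ (‖a‖ * Real.log (np P) * Real.exp C₀) * 2 :=
        mul_le_mul h5 h4 (norm_nonneg _) (mul_nonneg (mul_nonneg (norm_nonneg _) hl)
          (Real.exp_pos _).le)
    _ = 2 * Real.exp C₀ * ‖a‖ * Real.log (np P) := by ring

/-- `cR` is close to one -/
theorem cR_le {C₀ M : ℝ} (hC₀ : 0 < C₀) (hM : 2 ≤ M) {a : ℂ} (ha : ‖a‖ ≤ C₀ / Real.log M)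
    {n : Finset (PrI K)} (hn : nS np n ≤ M) (hn' : n ⊆ PM K M) :
    ‖cR np a n - 1‖ ≤ Real.exp (2 * Real.exp C₀ * C₀) *
      (2 * Real.exp C₀ * ‖a‖ * Real.log (nS np n)) ∧
    ‖cR np a n‖ ≤ Real.exp (2 * Real.exp C₀ * C₀) := by
  have hL : 0 < Real.log M := Real.log_pos (by linarith)
  obtain ⟨S, hS⟩ : ∃ S : ℝ, S = ∑ P ∈ n,
    ‖(((np P : ℝ) : ℂ) ^ a - 1) * ((np P / (np P - 1) : ℝ) : ℂ)‖ := ⟨_, rfl⟩
  have hS0 : 0 ≤ S := by
    rw [hS]
    exact Finset.sum_nonneg fun P _ => norm_nonneg _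
  have hS1 : S ≤ 2 * Real.exp C₀ * ‖a‖ * Real.log (nS np n) := by
    rw [hS, log_nS, Finset.mul_sum]
    exact Finset.sum_le_sum fun P hP => zf_le hC₀ hM ha (Pool.Agent.H96.CV.mem_PM.1 (hn' hP))
  have hlog : Real.log (nS np n) ≤ Real.log M :=
    Real.log_le_log (by linarith [one_le_nS n]) hn
  have hlog0 : 0 ≤ Real.log (nS np n) := Real.log_nonneg (one_le_nS n)
  have hS2 : S ≤ 2 * Real.exp C₀ * C₀ := by
    refine hS1.trans ?_
    have h3 : ‖a‖ * Real.log (nS np n) ≤ C₀ := by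
      calc ‖a‖ * Real.log (nS np n) ≤ C₀ / Real.log M * Real.log M :=
            mul_le_mul ha hlog hlog0 (by positivity)
        _ = C₀ := by field_simp
    rw [mul_assoc (2 * Real.exp C₀)]
    exact mul_le_mul_of_nonneg_left h3 (by positivity)
  have h1 := Finset.norm_prod_one_add_sub_one_le n
    (fun P : PrI K => (((np P : ℝ) : ℂ) ^ a - 1) * ((np P / (np P - 1) : ℝ) : ℂ))
  rw [← hS] at h1
  have h2 : ‖cR np a n - 1‖ ≤ Real.exp S - 1 := h1
  have h3 : Real.exp S - 1 ≤ S * Real.exp S := by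
    have h4 := Real.add_one_le_exp (-S)
    have h5 : Real.exp (-S) * Real.exp S = 1 := by rw [← Real.exp_add]; simp
    nlinarith [Real.exp_pos S]
  have h6 : Real.exp S ≤ Real.exp (2 * Real.exp C₀ * C₀) := Real.exp_le_exp.2 hS2
  constructor
  · refine h2.trans (h3.trans ?_)
    rw [mul_comm]
    exact mul_le_mul h6 hS1 hS0 (Real.exp_pos _).le
  · have h7 : ‖cR np a n‖ ≤ ‖cR np a n - 1‖ + 1 := by
      calc ‖cR np a n‖ = ‖(cR np a n - 1) + 1‖ := by ring_nf
        _ ≤ ‖cR np a n - 1‖ + ‖(1 : ℂ)‖ := norm_add_le _ _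
        _ = ‖cR np a n - 1‖ + 1 := by rw [norm_one]
    linarith

theorem Eb_zero {A R : Finset (PrI K)} {x : ℝ} (hx : x < 1) (b : ℂ) : Eb np A R x b = 0 := by
  classical
  unfold Eb
  have h1 : DS np A x = ∅ := by
    unfold DS
    refine Finset.filter_eq_empty_iff.2 fun S _ => ?_
    have := one_le_nS S
    intro h
    linarith
  rw [h1]
  simp

theorem sum_union_le_add {D R : Finset (PrI K)} [DecidableEq (PrI K)] :
    ∑ P ∈ D ∪ R, Real.log (np P) / (np P - 1) ≤
      (∑ P ∈ D, Real.log (np P) / (np P - 1)) + Real.log (nS np R) := by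
  have h0 : ∀ P : PrI K, 0 ≤ Real.log (np P) / (np P - 1) := fun P =>
    div_nonneg (logn_nonneg P) (by linarith [Pool.Agent.H96.CV.two_le_np P])
  have h1 := Finset.sum_union_inter (s₁ := D) (s₂ := R)
    (f := fun P : PrI K => Real.log (np P) / (np P - 1))
  have h2 : 0 ≤ ∑ P ∈ D ∩ R, Real.log (np P) / (np P - 1) := Finset.sum_nonneg fun P _ => h0 P
  have h3 : ∑ P ∈ R, Real.log (np P) / (np P - 1) ≤ Real.log (nS np R) := by
    rw [log_nS]
    refine Finset.sum_le_sum fun P _ => ?_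
    refine div_le_self (logn_nonneg P) ?_
    linarith [Pool.Agent.H96.CV.two_le_np P]
  linarith

end

theorem pf_UB (h1 : Pool.Agent.H65.CRZ.T_EB) : Pool.Agent.H31.CRG.T_UB := by
  classical
  intro K _ _ C₀ hC₀
  obtain ⟨C₁, hC₁, hEB⟩ := h1 K C₀ hC₀
  obtain ⟨X, hX⟩ : ∃ X : ℝ, X = Real.exp (2 * Real.exp C₀ * C₀) := ⟨_, rfl⟩
  have hX1 : 1 ≤ X := by
    rw [hX]
    exact Real.one_le_exp (by positivity)
  obtain ⟨Y, hY⟩ : ∃ Y : ℝ, Y = 2 * Real.exp C₀ := ⟨_, rfl⟩
  have hY0 : 0 < Y := by rw [hY]; positivity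
  refine ⟨X * C₁ + (X * Y * C₀ * C₁ + 3 * C₁ * C₀), ?_, ?_⟩
  · have : 1 ≤ X * C₁ := one_le_mul_of_one_le_of_one_le hX1 hC₁
    have : 0 ≤ X * Y * C₀ * C₁ + 3 * C₁ * C₀ := by positivity
    linarith
  intro M a b hM ha hb D R hD hR
  have hL : 0 < Real.log M := Real.log_pos (by linarith)
  have hD1 := one_le_nS D
  have hx : ∀ n : Finset (PrI K), M / (nS np D * nS np n) ≤ M := fun n => by
    refine div_le_self (by linarith) ?_
    exact one_le_mul_of_one_le_of_one_le hD1 (one_le_nS n)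
  obtain ⟨W, hW⟩ : ∃ W : Finset (PrI K), W = @Union.union (Finset (PrI K))
    (@Finset.instUnion (PrI K) (fun a b => Classical.propDecidable (a = b))) D R := ⟨_, rfl⟩
  have hUR : Pool.Agent.H31.CRG.UR np (PM K M) R D M a b = ∑ n ∈ R.powerset,
      (-1 : ℂ) ^ n.card * cR np a n * Eb np (PM K M) W (M / (nS np D * nS np n)) b := by
    unfold Pool.Agent.H31.CRG.UR
    rw [hW]
  rw [hUR]
  constructor
  · have h2 : ∀ n ∈ R.powerset,
        ‖(-1 : ℂ) ^ n.card * cR np a n * Eb np (PM K M) W (M / (nS np D * nS np n)) b‖ ≤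
          X * C₁ := by
      intro n hn
      rw [Finset.mem_powerset] at hn
      rw [norm_mul, norm_mul, norm_pow, norm_neg, norm_one, one_pow, one_mul]
      by_cases h : nS np n ≤ M
      · have h3 := (cR_le hC₀ hM ha h (hn.trans hR)).2
        rw [← hX] at h3
        have h4 := ((hEB M b hM hb _ (M / (nS np D * nS np n)) (hx n) le_rfl).1 W).1
        exact mul_le_mul h3 h4 (norm_nonneg _) (by linarith)
      · rw [Eb_zero, norm_zero, mul_zero]
        · positivity
        · push Not at h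
          have hn1 := one_le_nS n
          rw [div_lt_one (by positivity)]
          calc M < nS np n := h
            _ ≤ nS np D * nS np n := le_mul_of_one_le_left (by linarith) hD1
    refine (norm_sum_le_of_le _ h2).trans ?_
    rw [Finset.sum_const, nsmul_eq_mul, Finset.card_powerset]
    push_cast
    have h5 : 0 ≤ (X * Y * C₀ * C₁ + 3 * C₁ * C₀) * 2 ^ R.card := by positivity
    have h6 : (X * C₁ + (X * Y * C₀ * C₁ + 3 * C₁ * C₀)) * 2 ^ R.card =
        2 ^ R.card * (X * C₁) + (X * Y * C₀ * C₁ + 3 * C₁ * C₀) * 2 ^ R.card := by ring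
    rw [h6]
    linarith
  · intro hRn hDR
    obtain ⟨lR, hlR⟩ : ∃ lR : ℝ, lR = Real.log (nS np R) := ⟨_, rfl⟩
    obtain ⟨sD, hsD⟩ : ∃ sD : ℝ, sD = ∑ P ∈ D, Real.log (np P) / (np P - 1) := ⟨_, rfl⟩
    have hlR0 : 0 ≤ lR := by
      rw [hlR]
      exact Real.log_nonneg (one_le_nS R)
    have hsD0 : 0 ≤ sD := by
      rw [hsD]
      exact Finset.sum_nonneg fun P _ => div_nonneg (logn_nonneg P)
        (by linarith [Pool.Agent.H96.CV.two_le_np P])
    have hun : ∑ P ∈ W, Real.log (np P) / (np P - 1) ≤ sD + lR := by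
      rw [hsD, hlR, hW]
      exact @sum_union_le_add K _ _ D R (fun a b => Classical.propDecidable (a = b))
    rw [← hlR, ← hsD]
    obtain ⟨E₀, hE₀⟩ : ∃ E₀ : ℂ, E₀ = Eb np (PM K M) W (M / nS np D) b := ⟨_, rfl⟩
    have hx0 : M / nS np D ≤ M := div_le_self (by linarith) hD1
    have h2 : ∀ n ∈ R.powerset,
        ‖cR np a n * Eb np (PM K M) W (M / (nS np D * nS np n)) b - E₀‖ ≤
          (X * Y * C₀ * C₁ + 3 * C₁ * C₀) / Real.log M * (1 + lR + sD) := by
      intro n hn
      rw [Finset.mem_powerset] at hn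
      have hn1 := one_le_nS n
      have hnR := nS_mono hn
      have hDn : nS np D * nS np n ≤ M :=
        (mul_le_mul_of_nonneg_left hnR (by linarith)).trans hDR
      have hnM : nS np n ≤ M := (le_mul_of_one_le_left (by linarith) hD1).trans hDn
      have hlog0 : 0 ≤ Real.log (nS np n) := Real.log_nonneg hn1
      have hlog : Real.log (nS np n) ≤ lR := by
        rw [hlR]
        exact Real.log_le_log (by linarith) hnR
      obtain ⟨E, hE⟩ : ∃ E : ℂ, E = Eb np (PM K M) W (M / (nS np D * nS np n)) b :=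
        ⟨_, rfl⟩
      rw [← hE]
      have hxn : M / (nS np D * nS np n) ≤ M / nS np D := by
        refine div_le_div_of_nonneg_left (by linarith) (by linarith) ?_
        exact le_mul_of_one_le_right (by linarith) hn1
      have hx1 : 1 ≤ M / (nS np D * nS np n) := by
        rw [le_div_iff₀ (by positivity)]
        linarith
      have hEn := (hEB M b hM hb _ _ (hx n) le_rfl).1 W
      rw [← hE] at hEn
      have hE0 := (hEB M b hM hb _ _ hx0 le_rfl).1 W
      rw [← hE₀] at hE0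
      have hEE := (hEB M b hM hb _ _ hx0 hxn).2 hx1
      have hq : M / nS np D / (M / (nS np D * nS np n)) = nS np n := by
        have : nS np D ≠ 0 := by linarith
        have : nS np n ≠ 0 := by linarith
        have : M ≠ 0 := by linarith
        field_simp
      rw [hq] at hEE
      have hc := (cR_le hC₀ hM ha hnM (hn.trans hR)).1
      rw [← hX, ← hY] at hc
      obtain ⟨F, hF⟩ : ∃ F : ℂ, F = Eb np (PM K M) ∅ (M / (nS np D * nS np n)) b := ⟨_, rfl⟩
      obtain ⟨G, hG⟩ : ∃ G : ℂ, G = Eb np (PM K M) ∅ (M / nS np D) b := ⟨_, rfl⟩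
      rw [← hF] at hEn hEE
      rw [← hG] at hE0 hEE
      have hb0 := norm_nonneg b
      have hbun : C₁ * ‖b‖ * ∑ P ∈ W, Real.log (np P) / (np P - 1) ≤
          C₁ * ‖b‖ * (sD + lR) := mul_le_mul_of_nonneg_left hun (by positivity)
      have hbl : C₁ * ‖b‖ * (1 + Real.log (nS np n)) ≤ C₁ * ‖b‖ * (1 + lR) :=
        mul_le_mul_of_nonneg_left (by linarith) (by positivity)
      have hdiff : ‖E - E₀‖ ≤ 3 * (C₁ * ‖b‖ * (1 + lR + sD)) := by
        have e1 : E - E₀ = (E - F) + (F - G) + (G - E₀) := by ring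
        have e2 : ‖E - E₀‖ ≤ ‖E - F‖ + ‖F - G‖ + ‖G - E₀‖ := by
          rw [e1]
          exact norm_add₃_le
        rw [norm_sub_rev G F] at hEE
        rw [norm_sub_rev G E₀] at e2
        have e3 : 0 ≤ C₁ * ‖b‖ * (2 + sD) := by positivity
        have f1 := hEn.2.trans hbun
        have f2 := hE0.2.trans hbun
        have f3 := hEE.trans hbl
        obtain ⟨Z, hZ⟩ : ∃ Z : ℝ, Z = C₁ * ‖b‖ := ⟨_, rfl⟩
        rw [← hZ] at e3 f1 f2 f3 ⊢
        have e4 : 3 * (Z * (1 + lR + sD)) =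
          Z * (sD + lR) + Z * (1 + lR) + Z * (sD + lR) + Z * (2 + sD) := by ring
        rw [e4]
        linarith
      have e5 : cR np a n * E - E₀ = (cR np a n - 1) * E + (E - E₀) := by ring
      rw [e5]
      have e6 : ‖(cR np a n - 1) * E‖ ≤ X * (Y * ‖a‖ * lR) * C₁ := by
        rw [norm_mul]
        refine mul_le_mul (hc.trans ?_) hEn.1 (norm_nonneg _) (by positivity)
        refine mul_le_mul_of_nonneg_left ?_ (by linarith)
        exact mul_le_mul_of_nonneg_left hlog (by positivity)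
      have e7 : X * (Y * ‖a‖ * lR) * C₁ ≤ X * Y * C₁ * (C₀ / Real.log M) * (1 + lR + sD) := by
        calc X * (Y * ‖a‖ * lR) * C₁ = X * Y * C₁ * ‖a‖ * lR := by ring
          _ ≤ X * Y * C₁ * (C₀ / Real.log M) * (1 + lR + sD) := by
              refine mul_le_mul (mul_le_mul_of_nonneg_left ha (by positivity)) (by linarith) hlR0
                (by positivity)
      have e8 : 3 * (C₁ * ‖b‖ * (1 + lR + sD)) ≤
          3 * (C₁ * (C₀ / Real.log M) * (1 + lR + sD)) := by
        refine mul_le_mul_of_nonneg_left ?_ (by norm_num)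
        refine mul_le_mul_of_nonneg_right ?_ (by positivity)
        exact mul_le_mul_of_nonneg_left hb (by linarith)
      refine (norm_add_le _ _).trans ((add_le_add (e6.trans e7) (hdiff.trans e8)).trans
        (le_of_eq ?_))
      field_simp
    have h3 : ∑ n ∈ R.powerset,
        (-1 : ℂ) ^ n.card * cR np a n * Eb np (PM K M) W (M / (nS np D * nS np n)) b =
        ∑ n ∈ R.powerset, (-1 : ℂ) ^ n.card *
        (cR np a n * Eb np (PM K M) W (M / (nS np D * nS np n)) b - E₀) := by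
      have h4 : ∑ n ∈ R.powerset, (-1 : ℂ) ^ n.card * E₀ = 0 := by
        rw [← Finset.sum_mul]
        have h5 := Finset.sum_powerset_neg_one_pow_card_of_nonempty hRn
        have h6 : ∑ n ∈ R.powerset, (-1 : ℂ) ^ n.card = 0 := by
          have h7 := congrArg (fun z : ℤ => (z : ℂ)) h5
          push_cast at h7
          exact h7
        rw [h6, zero_mul]
      simp_rw [mul_sub, Finset.sum_sub_distrib]
      rw [h4, sub_zero]
      exact Finset.sum_congr rfl fun n _ => mul_assoc _ _ _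
    rw [h3]
    have h8 : ∀ n ∈ R.powerset, ‖(-1 : ℂ) ^ n.card *
        (cR np a n * Eb np (PM K M) W (M / (nS np D * nS np n)) b - E₀)‖ ≤
        (X * Y * C₀ * C₁ + 3 * C₁ * C₀) / Real.log M * (1 + lR + sD) := by
      intro n hn
      rw [norm_mul, norm_pow, norm_neg, norm_one, one_pow, one_mul]
      exact h2 n hn
    refine (norm_sum_le_of_le _ h8).trans ?_
    rw [Finset.sum_const, nsmul_eq_mul, Finset.card_powerset]
    push_cast
    have h9 : 0 ≤ X * C₁ * 2 ^ R.card / Real.log M * (1 + lR + sD) := by positivity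
    have h10 : (X * C₁ + (X * Y * C₀ * C₁ + 3 * C₁ * C₀)) * 2 ^ R.card / Real.log M *
        (1 + lR + sD) = X * C₁ * 2 ^ R.card / Real.log M * (1 + lR + sD) +
        2 ^ R.card * ((X * Y * C₀ * C₁ + 3 * C₁ * C₀) / Real.log M * (1 + lR + sD)) := by
      ring
    rw [h10]
    linarith

end Pool.Agent.H48.CRG
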